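import Pool.Agent.helper54.GR3.Spec
import Pool.Agent.helper27.MP.TB

set_option autoImplicit false

open Complex Metric Set Filter Topology MeasureTheory
open MPS (om)
open PPS (pre TT fd)
open XPS (Df er dens tau)
open Pool.Agent.helper16.Multibrot

noncomputable section

namespace GR

theorem PH3 : PH3_stmt := by
  intro n hn2 κ u h d hd hu hk
  have hprim := MPS.TB_prim n hn2
  have hω1 : ‖om n‖ = 1 := hprim.norm'_eq_one (by omega)
  have hω0 : om n ≠ 0 := by
    intro h0; rw [h0, norm_zero] at hω1; exact zero_ne_one hω1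
  have hx1 : om n ^ (d + 2) ≠ 1 := by
    intro h1
    exact hd ((hprim.zpow_eq_one_iff_dvd (d + 2)).mp h1)
  have hxn : (om n ^ (d + 2)) ^ n = 1 := by
    rw [← zpow_natCast, ← zpow_mul, mul_comm, zpow_mul, zpow_natCast, hprim.pow_eq_one, one_zpow]
  have hsum : ∑ k ∈ Finset.range n, (om n ^ (d + 2)) ^ k = 0 := by
    have h1 := geom_sum_mul (om n ^ (d + 2)) n
    rw [hxn, sub_self] at h1
    exact (mul_eq_zero.mp h1).resolve_right (sub_ne_zero.mpr hx1)
  have hterm : ∀ k : ℕ, om n ^ (2 * k) * (κ * (om n ^ k * u) ^ d) = (om n ^ (d + 2)) ^ k * (κ * u ^ d) := by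
    intro k
    have h1 : (om n ^ (d + 2)) ^ k = (om n ^ k) ^ d * om n ^ (2 * k) := by
      rw [← zpow_natCast (om n ^ (d + 2)) k, ← zpow_mul, ← zpow_natCast (om n) k, ← zpow_mul,
        ← zpow_natCast (om n) (2 * k), ← zpow_add₀ hω0]
      congr 1
      push_cast
      ring
    rw [mul_zpow, h1]
    ring
  have hnorm : ∀ k : ℕ, ‖κ * (om n ^ k * u) ^ d‖ = ‖κ * u ^ d‖ := by
    intro k
    rw [mul_zpow, norm_mul, norm_mul, norm_mul, norm_zpow, norm_pow, hω1, one_pow, one_zpow, one_mul]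
  set w : ℝ := ‖κ * u ^ d‖ with hw
  have hA : (n : ℝ) * (3 / 4 * w) ≤ ∑ k ∈ Finset.range n, ‖h k‖ := by
    have : ∀ k ∈ Finset.range n, 3 / 4 * w ≤ ‖h k‖ := by
      intro k hkn
      have h1 := hk k (Finset.mem_range.mp hkn)
      have h2 := norm_sub_norm_le (κ * (om n ^ k * u) ^ d) (h k)
      rw [hnorm k, norm_sub_rev] at h2
      linarith
    have h3 := Finset.card_nsmul_le_sum (Finset.range n) (fun k => ‖h k‖) (3 / 4 * w) this
    rw [Finset.card_range, nsmul_eq_mul] at h3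
    exact h3
  have hB : ‖∑ k ∈ Finset.range n, om n ^ (2 * k) * h k‖ ≤ n * (1 / 4 * w) := by
    have h1 : ∑ k ∈ Finset.range n, om n ^ (2 * k) * h k
        = ∑ k ∈ Finset.range n, om n ^ (2 * k) * (h k - κ * (om n ^ k * u) ^ d) := by
      rw [← sub_eq_zero, ← Finset.sum_sub_distrib]
      have h2 : ∀ k ∈ Finset.range n, om n ^ (2 * k) * h k
          - om n ^ (2 * k) * (h k - κ * (om n ^ k * u) ^ d) = (om n ^ (d + 2)) ^ k * (κ * u ^ d) := by
        intro k _
        rw [← hterm k]; ring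
      rw [Finset.sum_congr rfl h2, ← Finset.sum_mul, hsum, zero_mul]
    rw [h1]
    refine (norm_sum_le _ _).trans ?_
    have h3 : ∀ k ∈ Finset.range n, ‖om n ^ (2 * k) * (h k - κ * (om n ^ k * u) ^ d)‖ ≤ 1 / 4 * w := by
      intro k hkn
      rw [norm_mul, norm_pow, hω1, one_pow, one_mul]
      exact hk k (Finset.mem_range.mp hkn)
    have h4 := Finset.sum_le_card_nsmul _ _ _ h3
    rw [Finset.card_range, nsmul_eq_mul] at h4
    exact h4
  linarith

end GR
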